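import Pool.Agent.H14.QMult

set_option autoImplicit false
set_option maxRecDepth 100000
set_option synthInstance.maxSize 4096

namespace Pool.Agent.Results.MP_808179_co.NotNested

open Matrix Pool.Agent.H14.Q

def M : Matrix (Fin 10) (Fin 10) ℤ := !![0, 135, 0, 0, 0, -144, 0, 0, 108, 0;
  135, 0, 0, 120, 0, 0, -60, -120, 0, 0; 0, 0, 0, 90, 180, 0, 0, 90, 0, -45;
  0, 120, 90, 25, 0, 144, 50, 0, 42, 50; 0, 0, 180, 0, 0, -81, 0, 0, -108, 0;
  -144, 0, 0, 144, -81, 0, -36, 0, 0, -36; 0, -60, 0, 50, 0, -36, 200, -50, 27, 0;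
  0, -120, 90, 0, 0, 0, -50, 25, 150, 50; 108, 0, 0, 42, -108, 0, 27, 150, 0, -48;
  0, 0, -45, 50, 0, -36, 0, 50, -48, 200]

def G : SimpleGraph (Fin 10) where
  Adj i j := i ≠ j ∧ M i j ≠ 0
  symm := ⟨by decide +kernel⟩
  loopless := ⟨fun _ h => h.1 rfl⟩

instance : DecidableRel G.Adj := fun a b => inferInstanceAs (Decidable (a ≠ b ∧ M a b ≠ 0))

theorem sum10 (f : Fin 10 → ℝ) :
    ∑ i, f i = f 0 + f 1 + f 2 + f 3 + f 4 + f 5 + f 6 + f 7 + f 8 + f 9 := by
  simp only [Fin.sum_univ_succ, Fin.sum_univ_zero]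
  show f 0 + (f 1 + (f 2 + (f 3 + (f 4 + (f 5 + (f 6 + (f 7 + (f 8 + (f 9 + 0))))))))) = _
  ring

theorem canc {x y : ℝ} (hy : y ≠ 0) (h : x * y = 0) : x = 0 := (mul_eq_zero.mp h).resolve_right hy

theorem alg (b00 b01 b05 b08 b11 b13 b16 b17 b22 b23 b24 b27 b29 b33 b35 b36 b38 b39 b44 b45 b48 b55 b56 b59 b66 b67 b68 b77 b78 b79 b88 b89 b99 c : ℝ)
    (e01 : b00 * b01 + b01 * b11 = 0)
    (e05 : b00 * b05 + b05 * b55 = 0)
    (e08 : b00 * b08 + b08 * b88 = 0)
    (e45 : b44 * b45 + b45 * b55 = 0)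
    (e24 : b22 * b24 + b24 * b44 = 0)
    (e00 : b00 * b00 + b01 * b01 + b05 * b05 + b08 * b08 = c)
    (e19 : b13 * b39 + b17 * b79 = 0)
    (e13 : b11 * b13 + b13 * b33 + b16 * b36 = 0)
    (e17 : b11 * b17 + b16 * b67 + b17 * b77 = 0)
    (e16 : b11 * b16 + b13 * b36 + b16 * b66 + b17 * b67 = 0)
    (e26 : b23 * b36 + b27 * b67 = 0)
    (e23 : b22 * b23 + b23 * b33 + b29 * b39 = 0)
    (e27 : b22 * b27 + b27 * b77 + b29 * b79 = 0)
    (e29 : b22 * b29 + b23 * b39 + b27 * b79 + b29 * b99 = 0)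
    (e12 : b13 * b23 + b17 * b27 = 0)
    (e56 : b35 * b36 + b55 * b56 + b56 * b66 = 0)
    (e68 : b36 * b38 + b66 * b68 + b67 * b78 + b68 * b88 = 0)
    (e36 : b13 * b16 + b33 * b36 + b35 * b56 + b36 * b66 + b38 * b68 = 0)
    (e66 : b16 * b16 + b36 * b36 + b56 * b56 + b66 * b66 + b67 * b67 + b68 * b68 = c)
    (e67 : b16 * b17 + b66 * b67 + b67 * b77 + b68 * b78 = 0)
    (n01 : b01 ≠ 0) (n05 : b05 ≠ 0) (n08 : b08 ≠ 0) (n45 : b45 ≠ 0) (n24 : b24 ≠ 0) (n23 : b23 ≠ 0) (n13 : b13 ≠ 0) (n67 : b67 ≠ 0) (n36 : b36 ≠ 0) (n39 : b39 ≠ 0)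
    (ht : b00 + b11 + b22 + b33 + b44 + b55 + b66 + b77 + b88 + b99 = 0) : False := by
  have d0 : b00 + b11 = 0 := canc n01 (by linear_combination e01)
  have d5 : b00 + b55 = 0 := canc n05 (by linear_combination e05)
  have d8 : b00 + b88 = 0 := canc n08 (by linear_combination e08)
  have d4 : b44 + b55 = 0 := canc n45 (by linear_combination e45)
  have d2 : b22 + b44 = 0 := canc n24 (by linear_combination e24)
  have f0 : b00 = -b11 := by linarith
  have f5 : b55 = b11 := by linarith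
  have f8 : b88 = b11 := by linarith
  have f4 : b44 = -b11 := by linarith
  have f2 : b22 = b11 := by linarith
  rw [f0] at ht e00
  rw [f5] at ht e56
  rw [f8] at ht e68
  rw [f4] at ht
  rw [f2] at ht e23 e27 e29
  have p1 : b13 * b67 - b17 * b36 = 0 :=
    canc n23 (by linear_combination b67 * e12 - b17 * e26)
  have p2 : b23 * b79 - b27 * b39 = 0 :=
    canc n13 (by linear_combination b79 * e12 - b27 * e19)
  have p3 : b33 - b77 = 0 := canc (mul_ne_zero n13 n67)
    (by linear_combination b67 * e13 - b36 * e17 - (b11 + b77) * p1)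
  have f7 : b77 = b33 := by linarith
  rw [f7] at ht e67
  have q6 : b36 ^ 2 + b67 ^ 2 - (b11 + b33) * (b11 + b66) = 0 := canc n13
    (by linear_combination b36 * e16 - (b11 + b66) * e13 + b67 * p1)
  have q9 : b39 ^ 2 + b79 ^ 2 - (b11 + b33) * (b11 + b99) = 0 := canc n23
    (by linear_combination b39 * e29 - (b11 + b99) * e23 + b79 * p2)
  have a6 := sq_pos_of_ne_zero n36
  have a9 := sq_pos_of_ne_zero n39
  have n6 : b11 + b66 ≠ 0 := fun h => by rw [h, mul_zero] at q6; linarith [sq_nonneg (b67)]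
  have m6 : (b11 + b33 + b66) ^ 2 - c = 0 := canc n6 (by
    linear_combination b36 * e36 + (b11 + b66) * e66 + b67 * e67 - b16 * e16 - b56 * e56 -
      b68 * e68 - (b11 + b33 + 2 * b66) * q6)
  have g1 : 0 < (b11 + b33) * (2 * b11 + b33 + b66) := by
    linarith [sq_nonneg b67, sq_nonneg (b11 + b33), show (b11 + b33) * (2 * b11 + b33 + b66) =
      (b11 + b33) ^ 2 + (b11 + b33) * (b11 + b66) by ring]
  have g2 : 0 < (b11 + b33) * (2 * b11 + b33 + b99) := by
    linarith [sq_nonneg b79, sq_nonneg (b11 + b33), show (b11 + b33) * (2 * b11 + b33 + b99) =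
      (b11 + b33) ^ 2 + (b11 + b33) * (b11 + b99) by ring]
  have g3 : (2 * b11 + b33 + b66) * (2 * b11 + b33 + b99) = b11 ^ 2 - c := by
    linear_combination (2 * b11 + b33 + b66) * ht - m6
  have g4 : b11 ^ 2 - c ≤ 0 := by
    have : b11 ^ 2 - c = -(b01 ^ 2 + b05 ^ 2 + b08 ^ 2) := by linear_combination e00
    rw [this, neg_nonpos]; positivity
  have g5 := mul_pos g1 g2
  have g6 : (b11 + b33) * (2 * b11 + b33 + b66) * ((b11 + b33) * (2 * b11 + b33 + b99)) =
    (b11 + b33) ^ 2 * (b11 ^ 2 - c) := by linear_combination (b11 + b33) ^ 2 * g3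
  rw [g6] at g5
  exact absurd g5 (not_lt.mpr (mul_nonpos_of_nonneg_of_nonpos (sq_nonneg _) g4))

theorem core (B : Matrix (Fin 10) (Fin 10) ℝ) (hB : InS G B) (c : ℝ) (h2 : B * B = c • 1)
    (ht : B.trace = 0) : False := by
  have hz : ∀ i j, i ≠ j → ¬ G.Adj i j → B i j = 0 := fun i j h1 h2 => by
    by_contra h; exact h2 ((hB.2 i j h1).mp h)
  have hn : ∀ i j, G.Adj i j → B i j ≠ 0 := fun i j h => (hB.2 i j h.ne).mpr h
  have he : ∀ i j, B i 0 * B 0 j + B i 1 * B 1 j + B i 2 * B 2 j + B i 3 * B 3 j + B i 4 * B 4 j +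
      B i 5 * B 5 j + B i 6 * B 6 j + B i 7 * B 7 j + B i 8 * B 8 j + B i 9 * B 9 j =
      if i = j then c else 0 := by
    intro i j
    have := congrFun (congrFun h2 i) j
    rw [Matrix.mul_apply, sum10] at this
    rw [this]; simp [one_apply]
  rw [trace, sum10] at ht
  simp only [diag] at ht
  have z02 : B 0 2 = 0 := hz 0 2 (by decide +kernel) (by decide +kernel)
  have z20 : B 2 0 = 0 := hz 2 0 (by decide +kernel) (by decide +kernel)
  have z03 : B 0 3 = 0 := hz 0 3 (by decide +kernel) (by decide +kernel)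
  have z30 : B 3 0 = 0 := hz 3 0 (by decide +kernel) (by decide +kernel)
  have z04 : B 0 4 = 0 := hz 0 4 (by decide +kernel) (by decide +kernel)
  have z40 : B 4 0 = 0 := hz 4 0 (by decide +kernel) (by decide +kernel)
  have z06 : B 0 6 = 0 := hz 0 6 (by decide +kernel) (by decide +kernel)
  have z60 : B 6 0 = 0 := hz 6 0 (by decide +kernel) (by decide +kernel)
  have z07 : B 0 7 = 0 := hz 0 7 (by decide +kernel) (by decide +kernel)
  have z70 : B 7 0 = 0 := hz 7 0 (by decide +kernel) (by decide +kernel)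
  have z09 : B 0 9 = 0 := hz 0 9 (by decide +kernel) (by decide +kernel)
  have z90 : B 9 0 = 0 := hz 9 0 (by decide +kernel) (by decide +kernel)
  have z12 : B 1 2 = 0 := hz 1 2 (by decide +kernel) (by decide +kernel)
  have z21 : B 2 1 = 0 := hz 2 1 (by decide +kernel) (by decide +kernel)
  have z14 : B 1 4 = 0 := hz 1 4 (by decide +kernel) (by decide +kernel)
  have z41 : B 4 1 = 0 := hz 4 1 (by decide +kernel) (by decide +kernel)
  have z15 : B 1 5 = 0 := hz 1 5 (by decide +kernel) (by decide +kernel)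
  have z51 : B 5 1 = 0 := hz 5 1 (by decide +kernel) (by decide +kernel)
  have z18 : B 1 8 = 0 := hz 1 8 (by decide +kernel) (by decide +kernel)
  have z81 : B 8 1 = 0 := hz 8 1 (by decide +kernel) (by decide +kernel)
  have z19 : B 1 9 = 0 := hz 1 9 (by decide +kernel) (by decide +kernel)
  have z91 : B 9 1 = 0 := hz 9 1 (by decide +kernel) (by decide +kernel)
  have z25 : B 2 5 = 0 := hz 2 5 (by decide +kernel) (by decide +kernel)
  have z52 : B 5 2 = 0 := hz 5 2 (by decide +kernel) (by decide +kernel)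
  have z26 : B 2 6 = 0 := hz 2 6 (by decide +kernel) (by decide +kernel)
  have z62 : B 6 2 = 0 := hz 6 2 (by decide +kernel) (by decide +kernel)
  have z28 : B 2 8 = 0 := hz 2 8 (by decide +kernel) (by decide +kernel)
  have z82 : B 8 2 = 0 := hz 8 2 (by decide +kernel) (by decide +kernel)
  have z34 : B 3 4 = 0 := hz 3 4 (by decide +kernel) (by decide +kernel)
  have z43 : B 4 3 = 0 := hz 4 3 (by decide +kernel) (by decide +kernel)
  have z37 : B 3 7 = 0 := hz 3 7 (by decide +kernel) (by decide +kernel)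
  have z73 : B 7 3 = 0 := hz 7 3 (by decide +kernel) (by decide +kernel)
  have z46 : B 4 6 = 0 := hz 4 6 (by decide +kernel) (by decide +kernel)
  have z64 : B 6 4 = 0 := hz 6 4 (by decide +kernel) (by decide +kernel)
  have z47 : B 4 7 = 0 := hz 4 7 (by decide +kernel) (by decide +kernel)
  have z74 : B 7 4 = 0 := hz 7 4 (by decide +kernel) (by decide +kernel)
  have z49 : B 4 9 = 0 := hz 4 9 (by decide +kernel) (by decide +kernel)
  have z94 : B 9 4 = 0 := hz 9 4 (by decide +kernel) (by decide +kernel)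
  have z57 : B 5 7 = 0 := hz 5 7 (by decide +kernel) (by decide +kernel)
  have z75 : B 7 5 = 0 := hz 7 5 (by decide +kernel) (by decide +kernel)
  have z58 : B 5 8 = 0 := hz 5 8 (by decide +kernel) (by decide +kernel)
  have z85 : B 8 5 = 0 := hz 8 5 (by decide +kernel) (by decide +kernel)
  have z69 : B 6 9 = 0 := hz 6 9 (by decide +kernel) (by decide +kernel)
  have z96 : B 9 6 = 0 := hz 9 6 (by decide +kernel) (by decide +kernel)
  have s10 : B 1 0 = B 0 1 := hB.1.apply 0 1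
  have s50 : B 5 0 = B 0 5 := hB.1.apply 0 5
  have s80 : B 8 0 = B 0 8 := hB.1.apply 0 8
  have s31 : B 3 1 = B 1 3 := hB.1.apply 1 3
  have s61 : B 6 1 = B 1 6 := hB.1.apply 1 6
  have s71 : B 7 1 = B 1 7 := hB.1.apply 1 7
  have s32 : B 3 2 = B 2 3 := hB.1.apply 2 3
  have s42 : B 4 2 = B 2 4 := hB.1.apply 2 4
  have s72 : B 7 2 = B 2 7 := hB.1.apply 2 7
  have s92 : B 9 2 = B 2 9 := hB.1.apply 2 9
  have s53 : B 5 3 = B 3 5 := hB.1.apply 3 5
  have s63 : B 6 3 = B 3 6 := hB.1.apply 3 6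
  have s83 : B 8 3 = B 3 8 := hB.1.apply 3 8
  have s93 : B 9 3 = B 3 9 := hB.1.apply 3 9
  have s54 : B 5 4 = B 4 5 := hB.1.apply 4 5
  have s84 : B 8 4 = B 4 8 := hB.1.apply 4 8
  have s65 : B 6 5 = B 5 6 := hB.1.apply 5 6
  have s95 : B 9 5 = B 5 9 := hB.1.apply 5 9
  have s76 : B 7 6 = B 6 7 := hB.1.apply 6 7
  have s86 : B 8 6 = B 6 8 := hB.1.apply 6 8
  have s87 : B 8 7 = B 7 8 := hB.1.apply 7 8
  have s97 : B 9 7 = B 7 9 := hB.1.apply 7 9
  have s98 : B 9 8 = B 8 9 := hB.1.apply 8 9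
  have e01 := (he 0 1).trans (if_neg (by decide +kernel))
  have e05 := (he 0 5).trans (if_neg (by decide +kernel))
  have e08 := (he 0 8).trans (if_neg (by decide +kernel))
  have e45 := (he 4 5).trans (if_neg (by decide +kernel))
  have e24 := (he 2 4).trans (if_neg (by decide +kernel))
  have e00 := (he 0 0).trans (if_pos rfl)
  have e19 := (he 1 9).trans (if_neg (by decide +kernel))
  have e13 := (he 1 3).trans (if_neg (by decide +kernel))
  have e17 := (he 1 7).trans (if_neg (by decide +kernel))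
  have e16 := (he 1 6).trans (if_neg (by decide +kernel))
  have e26 := (he 2 6).trans (if_neg (by decide +kernel))
  have e23 := (he 2 3).trans (if_neg (by decide +kernel))
  have e27 := (he 2 7).trans (if_neg (by decide +kernel))
  have e29 := (he 2 9).trans (if_neg (by decide +kernel))
  have e12 := (he 1 2).trans (if_neg (by decide +kernel))
  have e56 := (he 5 6).trans (if_neg (by decide +kernel))
  have e68 := (he 6 8).trans (if_neg (by decide +kernel))
  have e36 := (he 3 6).trans (if_neg (by decide +kernel))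
  have e66 := (he 6 6).trans (if_pos rfl)
  have e67 := (he 6 7).trans (if_neg (by decide +kernel))
  simp only [z02, z20, z03, z30, z04, z40, z06, z60, z07, z70, z09, z90, z12, z21, z14, z41, z15, z51, z18, z81, z19, z91, z25, z52, z26, z62, z28, z82, z34, z43, z37, z73, z46, z64, z47, z74, z49, z94, z57, z75, z58, z85, z69, z96, s10, s50, s80, s31, s61, s71, s32, s42, s72, s92, s53, s63, s83, s93, s54, s84, s65, s95, s76, s86, s87, s97, s98, mul_zero, zero_mul, add_zero, zero_add] at e01 e05 e08 e45 e24 e00 e19 e13 e17 e16 e26 e23 e27 e29 e12 e56 e68 e36 e66 e67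
  exact alg (B 0 0) (B 0 1) (B 0 5) (B 0 8) (B 1 1) (B 1 3) (B 1 6) (B 1 7) (B 2 2) (B 2 3) (B 2 4) (B 2 7) (B 2 9) (B 3 3) (B 3 5) (B 3 6) (B 3 8) (B 3 9) (B 4 4) (B 4 5) (B 4 8) (B 5 5) (B 5 6) (B 5 9) (B 6 6) (B 6 7) (B 6 8) (B 7 7) (B 7 8) (B 7 9) (B 8 8) (B 8 9) (B 9 9) c
    e01 e05 e08 e45 e24 e00 e19 e13 e17 e16 e26 e23 e27 e29 e12 e56 e68 e36 e66 e67
    (hn 0 1 (by decide +kernel)) (hn 0 5 (by decide +kernel)) (hn 0 8 (by decide +kernel)) (hn 4 5 (by decide +kernel)) (hn 2 4 (by decide +kernel)) (hn 2 3 (by decide +kernel)) (hn 1 3 (by decide +kernel)) (hn 6 7 (by decide +kernel)) (hn 3 6 (by decide +kernel)) (hn 3 9 (by decide +kernel)) ht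

theorem result : ¬ ∀ (n k : ℕ), 3 ≤ k → k + 1 ≤ n / 2 → ∀ G : SimpleGraph (Fin n),
    Achieves G k → Achieves G (k + 1) := by
  intro h
  have hA := inS_cast G M (by decide +kernel) (by decide +kernel)
  have h2 : (Int.castRingHom ℝ).mapMatrix M * (Int.castRingHom ℝ).mapMatrix M =
      ((225 : ℝ) + -225) • (Int.castRingHom ℝ).mapMatrix M - ((225 : ℝ) * -225) • 1 := by
    have h : M * M = (50625 : ℤ) • 1 := by decide +kernel
    rw [← map_mul, h, map_zsmul, map_one]
    ext i j; simp [one_apply]; norm_num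
  have ht : ((Int.castRingHom ℝ).mapMatrix M).trace = 450 := by
    have h : M.trace = 450 := by decide +kernel
    have := congrArg (Int.cast : ℤ → ℝ) h
    simpa [trace] using this
  obtain ⟨A, hS, a, b, -, hc⟩ := h 10 4 (by norm_num) (by norm_num) G ⟨_, hA, 225, -225, by norm_num,
    charpoly_of_quad hA.1 _ _ (by norm_num) h2 4 (by norm_num) (by rw [ht]; norm_num)⟩
  obtain ⟨h3, h4⟩ := quad_of_charpoly hS.1 a b _ _ hc
  refine core (A - ((a + b) / 2) • 1) ⟨?_, fun i j hij => ?_⟩ ((a - b) ^ 2 / 4) ?_ ?_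
  · exact hS.1.sub (isSymm_one.smul _)
  · simpa [hij] using hS.2 i j hij
  · simp only [Matrix.mul_sub, Matrix.sub_mul, Matrix.mul_smul, Matrix.smul_mul, Matrix.mul_one,
      Matrix.one_mul, h3]
    module
  · rw [trace_sub, trace_smul, trace_one, h4]; simp; ring

end Pool.Agent.Results.MP_808179_co.NotNested
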